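import Pool.Agent.H44.FB.Basics

/-!
# Gadgets (row GDG)
-/

set_option autoImplicit false

namespace Pool.Agent.H98.FB

open Pool.Agent.H68.BP Pool.Agent.H58.SF Pool.Agent.H53.NR
open Pool.Agent.H53.GC (arP relP strOn sigOf)
open Pool.Agent.H53.GR (Ps Dm)
open Pool.Agent.H53.GM (Connected Avoids Val Cols DmG)
open Pool.Agent.H53.GX (FmX)
open Pool.Agent.H57.AR (tp ty Ty)
open Pool.Agent.H57.EQ (Cx)
open Pool.Agent.H57.SO (fib sigF SF)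
open Pool.Agent.H57.LH (SS vs c0 Blind NCB Cor Prs tfL SyL)
open Pool.Agent.H44.KR Pool.Agent.H44.FB
open Function Classical

variable {V : Type} {σ ρ : Sig} {𝔸 : Str σ V} {𝔹 : Str ρ V}

theorem loc_comp {X : Finset V} {ψ η : V → V} (h : Loc 𝔸 X ψ) (h' : Loc 𝔸 (X.image ψ) η) :
    Loc 𝔸 X (fun x => η (ψ x)) := by
  intro l z hz hA
  exact h' l (fun i => ψ (z i)) (fun i => Finset.mem_image_of_mem ψ (hz i)) (h l z hz hA)

theorem loc_mono {X Y : Finset V} {ψ : V → V} (h : Loc 𝔸 Y ψ) (hXY : X ⊆ Y) : Loc 𝔸 X ψ :=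
  fun l z hz hA => h l z (fun i => hXY (hz i)) hA

theorem gad_one (hM : MinC 𝔸 𝔹) (s : Fin ρ.m → Prop) (hs : s ∈ Rlz 𝔹) :
    ∃ (X : Finset V) (w : V), w ∈ X ∧ ty 𝔹 w = s ∧ ∀ ψ : V → V, Loc 𝔸 X ψ →
      (∀ x ∈ X, x ≠ w → ty 𝔹 (ψ x) = ty 𝔹 x) → ty 𝔹 (ψ w) = s := by
  by_contra hc
  push Not at hc
  obtain ⟨W, hW⟩ := hM s hs
  have key : ∀ (k : ℕ) (ψ : V → V), Loc 𝔸 W ψ →
      (W.filter (fun w => ty 𝔹 (ψ w) = s)).card ≤ k → False := by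
    intro k
    induction k with
    | zero =>
      intro ψ hψ hk
      obtain ⟨w, hw, hws⟩ := hW ψ hψ
      have h1 : w ∈ W.filter (fun w => ty 𝔹 (ψ w) = s) := Finset.mem_filter.2 ⟨hw, hws⟩
      have h2 : 0 < (W.filter (fun w => ty 𝔹 (ψ w) = s)).card := Finset.card_pos.2 ⟨w, h1⟩
      omega
    | succ k ih =>
      intro ψ hψ hk
      obtain ⟨w, hw, hws⟩ := hW ψ hψ
      obtain ⟨η, hη, hη2, hη3⟩ := hc (W.image ψ) (ψ w) (Finset.mem_image_of_mem ψ hw) hws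
      refine ih (fun x => η (ψ x)) (loc_comp hψ hη) ?_
      have hss : W.filter (fun x => ty 𝔹 (η (ψ x)) = s) ⊂ W.filter (fun x => ty 𝔹 (ψ x) = s) := by
        rw [Finset.ssubset_iff_of_subset]
        · refine ⟨w, Finset.mem_filter.2 ⟨hw, hws⟩, ?_⟩
          intro h5
          exact hη3 (Finset.mem_filter.1 h5).2
        · intro x hx
          obtain ⟨hxW, hxs⟩ := Finset.mem_filter.1 hx
          refine Finset.mem_filter.2 ⟨hxW, ?_⟩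
          have hne : ψ x ≠ ψ w := by
            intro h6
            apply hη3
            rw [← h6]
            exact hxs
          have h7 := hη2 (ψ x) (Finset.mem_image_of_mem ψ hxW) hne
          rw [← h7]
          exact hxs
      have h8 := Finset.card_lt_card hss
      omega
  exact key _ (fun x => x) (fun l z _ hA => hA) le_rfl

theorem gad_two (hI : InsC 𝔸 𝔹) (X : Finset V) (w : V) (s : Fin ρ.m → Prop) (hs : s ∈ Rlz 𝔹)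
    (hX : w ∈ X)
    (h : ∀ ψ : V → V, Loc 𝔸 X ψ → (∀ x ∈ X, x ≠ w → ty 𝔹 (ψ x) = ty 𝔹 x) → ty 𝔹 (ψ w) = s)
    (γ : (Fin ρ.m → Prop) → (Fin ρ.m → Prop)) (hγ : Sb 𝔸 𝔹 γ) (ψ : V → V) (hψ : Loc 𝔸 X ψ)
    (ht : ∀ x ∈ X, x ≠ w → ty 𝔹 (ψ x) = γ (ty 𝔹 x)) : ty 𝔹 (ψ w) = γ s := by
  obtain ⟨γ', hγ', hinv⟩ := hI γ hγ
  obtain ⟨η₀, hη₀, hη₁⟩ := hγ' {v // v ∈ X.image ψ} (fun v => v.1)
  have e : ∀ v (hv : v ∈ X.image ψ), (if hv : v ∈ X.image ψ then η₀ ⟨v, hv⟩ else v) = η₀ ⟨v, hv⟩ :=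
    fun v hv => dif_pos hv
  have hloc : Loc 𝔸 (X.image ψ) (fun v => if hv : v ∈ X.image ψ then η₀ ⟨v, hv⟩ else v) := by
    intro l z hz hA
    have h1 : (fun i => if hv : z i ∈ X.image ψ then η₀ ⟨z i, hv⟩ else z i) =
        fun i => η₀ ⟨z i, hz i⟩ := funext fun i => e _ (hz i)
    rw [h1]
    exact hη₀ l (fun i => ⟨z i, hz i⟩) (fun _ => hA)
  have hty : ∀ v ∈ X.image ψ, ty 𝔹 (if hv : v ∈ X.image ψ then η₀ ⟨v, hv⟩ else v) =
      γ' (ty 𝔹 v) := by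
    intro v hv
    rw [e v hv]
    exact hη₁ ⟨v, hv⟩
  have h1 := h _ (loc_comp hψ hloc) (by
    intro x hx hxw
    have h2 := hty (ψ x) (Finset.mem_image_of_mem ψ hx)
    refine h2.trans ?_
    rw [ht x hx hxw]
    exact (hinv (ty 𝔹 x) ⟨x, rfl⟩).1)
  have h3 := hty (ψ w) (Finset.mem_image_of_mem ψ hX)
  have h4 : γ' (ty 𝔹 (ψ w)) = s := h3.symm.trans h1
  rw [← h4]
  exact ((hinv (ty 𝔹 (ψ w)) ⟨ψ w, rfl⟩).2).symm

theorem pf_GDG : T_GDG := by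
  intro V σ ρ 𝔸 𝔹 hB hI hM
  have hne : Nonempty V := hB.ne
  have h0 : ∀ s : Fin ρ.m → Prop, ∃ p : Finset V × V, s ∈ Rlz 𝔹 → p.2 ∈ p.1 ∧ ty 𝔹 p.2 = s ∧
      ∀ ψ : V → V, Loc 𝔸 p.1 ψ → (∀ x ∈ p.1, x ≠ p.2 → ty 𝔹 (ψ x) = ty 𝔹 x) →
        ty 𝔹 (ψ p.2) = s := by
    intro s
    by_cases hs : s ∈ Rlz 𝔹
    · obtain ⟨X, w, h⟩ := gad_one hM s hs
      exact ⟨(X, w), fun _ => h⟩
    · exact ⟨(∅, Classical.arbitrary V), fun h => absurd h hs⟩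
  choose p hp using h0
  refine ⟨Finset.univ.biUnion (fun s => (p s).1), fun s => (p s).2, ⟨?_, ?_, ?_⟩⟩
  · intro s hs
    exact Finset.mem_biUnion.2 ⟨s, Finset.mem_univ _, (hp s hs).1⟩
  · intro s hs
    exact (hp s hs).2.1
  · intro s hs γ hγ ψ hψ ht
    have hsub : (p s).1 ⊆ Finset.univ.biUnion (fun s => (p s).1) := by
      intro x hx
      exact Finset.mem_biUnion.2 ⟨s, Finset.mem_univ _, hx⟩
    exact gad_two hI (p s).1 (p s).2 s hs (hp s hs).1 (hp s hs).2.2 γ hγ ψ (loc_mono hψ hsub)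
      (fun x hx hxw => ht x (hsub hx) hxw)

end Pool.Agent.H98.FB
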